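import Pool.Agent.H572R4.Stmts

/-!
# Project H572-PI, task E1 (helper436)
-/

set_option autoImplicit false

namespace Pool.Agent.H572R4

open Pool.Agent.Helper446.Defs Pool.Agent.Helper446.CB Pool.Agent.Helper446.CB.Ix

theorem taskE1 : TaskE1 := by
  classical
  intro c
  constructor
  · rintro ⟨d, h1, h2⟩
    have h1' : c.1 ∩ d.1 = ∅ := by
      have h := congrArg Subtype.val h1
      rw [lb_inf, lb_bot] at h
      exact h
    have h2' : c.1 ∪ d.1 = Set.univ := by
      have h := congrArg Subtype.val h2
      rw [lb_sup, lb_top] at h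
      exact h
    have hd : d.1 = c.1ᶜ := by
      apply Set.Subset.antisymm
      · intro x hx hxc
        have : x ∈ c.1 ∩ d.1 := ⟨hxc, hx⟩
        rw [h1'] at this
        exact this
      · intro x hx
        have : x ∈ c.1 ∪ d.1 := by rw [h2']; trivial
        rcases this with h | h
        · exact absurd h hx
        · exact h
    have hc : IsClopen c.1 := by
      refine ⟨IsPi01.isClosed c.2.1, ?_⟩
      have h3 : IsClosed d.1 := IsPi01.isClosed d.2.1
      rw [hd] at h3
      have h4 := h3.isOpen_compl
      rwa [compl_compl] at h4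
    obtain ⟨n, hn⟩ := clopen_iff.1 hc
    refine ⟨(allStr n).filter (fun σ => σ ∈ Ext c.1), ?_⟩
    ext x
    constructor
    · intro hx
      refine ⟨seg x n, ?_, by rw [seg_length]⟩
      rw [List.mem_filter, mem_allStr]
      exact ⟨seg_length x n, by simpa using seg_mem_ext hx n⟩
    · rintro ⟨σ, hσ, hxσ⟩
      rw [List.mem_filter, mem_allStr] at hσ
      obtain ⟨hl, he⟩ := hσ
      have he' : σ ∈ Ext c.1 := by simpa using he
      obtain ⟨y, hy, hyσ⟩ := he'
      have hxy : seg x n = seg y n := by
        rw [← hl, hxσ, hyσ]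
      exact (hn x y hxy).2 hy
  · rintro ⟨l, hl⟩
    have hclopen : IsClopen (cylS l) := by
      have h : cylS l = ⋃ σ ∈ l.toFinset, cyl σ := by
        ext x
        simp only [Set.mem_iUnion, List.mem_toFinset, mem_cyl, exists_prop]
        rfl
      rw [h]
      exact isClopen_biUnion_finset fun σ _ => isClopen_cyl σ
    refine ⟨⟨(cylS l)ᶜ, IsPi01.of_clopen hclopen.compl, Set.empty_subset _⟩, ?_, ?_⟩
    · apply Subtype.ext
      rw [lb_inf, lb_bot, hl]
      exact Set.inter_compl_self _
    · apply Subtype.ext
      rw [lb_sup, lb_top, hl]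
      exact Set.union_compl_self _

end Pool.Agent.H572R4
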